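import Pool.Agent.W603.GX.Flow
import Pool.Agent.W602.GT.NG
import Pool.Agent.W602.GT.KPsefS

/-!
Places on the fibres of the additive flow.
-/

set_option autoImplicit false

open FF IntermediateField Pool.Agent.W603.LV Pool.Agent.W603.PV Pool.Agent.W603.GR Pool.Agent.W603.GW
  Pool.Agent.W602.GT

namespace Pool.Agent.W603.GX

variable {k : Type} [Field k] {n : ℕ} {ι κ : Type}

theorem lin_mem {K : Type} [Field K] [Algebra k K] (C : IntermediateField k K)
    (l : Fin (n + 1) → k) {z : Fin (n + 1) → K} (hz : ∀ i, z i ∈ C) : lin l z ∈ C := by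
  unfold lin
  exact sum_mem fun i _ => mul_mem (C.algebraMap_mem _) (hz i)

theorem val_div {K : Type} [Field K] [Algebra k K] {G : MvPolynomial (Fin (n + 1)) k} {d : ℕ}
    (hG : G.IsHomogeneous d) (y : Fin (n + 1) → K) {c : K} (hc : c ≠ 0) :
    val y G = c ^ d * val (fun i => y i / c) G := by
  unfold Pool.Agent.W602.GT.val
  rw [← aeval_scale hG (fun i => y i / c) c]
  congr 1
  congr 1
  funext i
  field_simp

/-- The data of an additive flow on the component. -/
structure FlowData {K : Type} [Field K] [Algebra k K] (Q : κ → MvPolynomial (Fin (n + 1)) k)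
    (y : Fin (n + 1) → K) (lq : κ → Fin (n + 1) → k) (C : IntermediateField k K) (c τ : K)
    (z e : Fin (n + 1) → K) : Prop where
  hom : ∀ j, (Q j).IsHomogeneous (Q j).totalDegree
  off : ∀ j, val y (Q j) ≠ 0
  c_ne : c ≠ 0
  trans : Transcendental C τ
  top : C⟮τ⟯ = ⊤
  z_mem : ∀ l, z l ∈ C
  e_mem : ∀ l, e l ∈ C
  u_eq : ∀ l, y l / c = z l + e l * τ
  lq_ne : ∀ j, lin (lq j) y ≠ 0
  q_mem : ∀ j, val y (Q j) / lin (lq j) y ^ (Q j).totalDegree ∈ C

variable {K : Type} [Field K] [Algebra k K] {Q : κ → MvPolynomial (Fin (n + 1)) k}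
  {y : Fin (n + 1) → K} {lq : κ → Fin (n + 1) → k} {C : IntermediateField k K} {c τ : K}
  {z e : Fin (n + 1) → K}

theorem FlowData.lin_u (h : FlowData Q y lq C c τ z e) (l : Fin (n + 1) → k) :
    lin l y / c = lin l z + lin l e * τ := by
  rw [← lin_div]
  have h7 := lin_add_smul l z e 1 τ
  simp only [one_mul] at h7
  rw [mul_comm, ← h7]
  congr 1
  funext i
  rw [h.u_eq, mul_comm]

theorem FlowData.not_off (h : FlowData Q y lq C c τ z e) {P : Place k K}
    (hP : ∀ x ∈ C, x ≠ 0 → P.ord x = 0) (hτ : 0 ≤ P.ord τ)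
    (hl : ∀ j, P.ord (lin (lq j) y / c) = 0) : ¬ OffAny Q y P := by
  have hreg : ∀ x ∈ C, Ge P 0 x := fun x hx => by
    by_cases h0 : x = 0
    · exact Or.inl h0
    · exact Or.inr (hP x hx h0).ge
  rintro ⟨j, i, hyi, hlt⟩
  have h1 := val_div (h.hom j) y h.c_ne
  set u : Fin (n + 1) → K := fun i => y i / c with hu
  have hui : u i ≠ 0 := div_ne_zero hyi h.c_ne
  have huQ : val u (Q j) ≠ 0 := by
    intro h0
    apply h.off j
    rw [h1, h0, mul_zero]
  have h2 : Ge P 0 (u i) := by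
    have h3 := (hreg _ (h.z_mem i)).add ((hreg _ (h.e_mem i)).mul (Or.inr hτ : Ge P 0 τ))
    have h4 : u i = z i + e i * τ := h.u_eq i
    rw [h4]
    exact h3
  have h3 : val u (Q j) = val y (Q j) / lin (lq j) y ^ (Q j).totalDegree *
      (lin (lq j) y / c) ^ (Q j).totalDegree := by
    have h4 := h.lq_ne j
    have h5 := h.c_ne
    rw [h1, div_pow]
    field_simp
  have h4 : val y (Q j) / lin (lq j) y ^ (Q j).totalDegree ≠ 0 :=
    div_ne_zero (h.off j) (pow_ne_zero _ (h.lq_ne j))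
  have h5 : P.ord (val u (Q j)) = 0 := by
    rw [h3, P.ord_mul h4 (pow_ne_zero _ (div_ne_zero (h.lq_ne j) h.c_ne)), P.ord_pow, hl j,
      hP _ (h.q_mem j) h4]
    ring
  have h6 : y i = c * u i := by
    rw [hu]
    have := h.c_ne
    field_simp
  rw [h6, h1, P.ord_mul h.c_ne hui, P.ord_mul (pow_ne_zero _ h.c_ne) huQ, P.ord_pow, h5,
    add_zero, mul_add] at hlt
  have h7 : (0 : ℤ) ≤ (Q j).totalDegree * P.ord (u i) :=
    mul_nonneg (by positivity) (h2.resolve_left hui)
  omega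

/-- The boundary does not meet the affine lines. -/
theorem FlowData.not_psef [CharZero k] (h : FlowData Q y lq C c τ z e) {w : ℕ}
    (htr : Algebra.trdeg k K = w) (he : ∀ j, lin (lq j) e = 0) :
    ¬ Psef k K w (OffAny Q y) := by
  obtain ⟨δ, hδ, hδC, hδtop⟩ := delta_of C h.trans h.top
  have hσ0 : τ ≠ 0 := by
    intro h0
    apply h.trans
    rw [h0]
    exact isAlgebraic_zero
  refine Pool.Agent.W602.GT.not_psef htr δ hσ0 hδ hδtop fun P hP hτ => ?_
  have hPC : ∀ x ∈ C, x ≠ 0 → P.ord x = 0 := fun x hx h0 => hP x (hδC x hx) h0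
  refine h.not_off hPC hτ fun j => ?_
  refine hPC _ ?_ (div_ne_zero (h.lq_ne j) h.c_ne)
  rw [h.lin_u, he, zero_mul, add_zero]
  exact lin_mem C _ h.z_mem

/-- The boundary meets the lines in at most two points. -/
theorem FlowData.not_lgt [CharZero k] (h : FlowData Q y lq C c τ z e) {w : ℕ}
    (he : ∀ j j', lin (lq j) e ≠ 0 → lin (lq j') e ≠ 0 → j = j') :
    ¬ LogGeneralType k K w (OffAny Q y) := by
  have hτ0 : τ ≠ 0 := by
    intro h0
    apply h.trans
    rw [h0]
    exact isAlgebraic_zero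
  by_cases hall : ∀ j, lin (lq j) e = 0
  · obtain ⟨δ, hδ, hδC, hδtop⟩ := delta_of C h.trans h.top
    refine not_log_gt δ hτ0 hδ hδtop fun P hP hτ => ?_
    have hPC : ∀ x ∈ C, x ≠ 0 → P.ord x = 0 := fun x hx h0 => hP x (hδC x hx) h0
    refine h.not_off hPC hτ.ge fun j => ?_
    refine hPC _ ?_ (div_ne_zero (h.lq_ne j) h.c_ne)
    rw [h.lin_u, hall, zero_mul, add_zero]
    exact lin_mem C _ h.z_mem
  · push Not at hall
    obtain ⟨j2, hj2⟩ := hall
    set a := lin (lq j2) z with ha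
    set b := lin (lq j2) e with hb
    have haC : a ∈ C := lin_mem C _ h.z_mem
    have hbC : b ∈ C := lin_mem C _ h.e_mem
    set σ := lin (lq j2) y / c with hσ
    have hστ : σ = a + b * τ := h.lin_u _
    have hτσ : τ = (σ - a) / b := by
      rw [hστ]
      field_simp
      ring
    have hσ0 : σ ≠ 0 := div_ne_zero (h.lq_ne j2) h.c_ne
    have htop : C⟮σ⟯ = ⊤ := by
      rw [eq_top_iff, ← h.top, IntermediateField.adjoin_simple_le_iff]
      rw [hτσ]
      refine div_mem (sub_mem (IntermediateField.mem_adjoin_simple_self _ _) ?_) ?_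
      · exact (C⟮σ⟯).algebraMap_mem (⟨a, haC⟩ : C)
      · exact (C⟮σ⟯).algebraMap_mem (⟨b, hbC⟩ : C)
    have htrans : Transcendental C σ := by
      intro halg
      apply h.trans
      rw [hτσ]
      have h1 : IsAlgebraic C a := isAlgebraic_algebraMap (⟨a, haC⟩ : C)
      have h2 : IsAlgebraic C b := isAlgebraic_algebraMap (⟨b, hbC⟩ : C)
      rw [div_eq_mul_inv]
      exact (halg.sub h1).mul h2.inv
    obtain ⟨δ, hδ, hδC, hδtop⟩ := delta_of C htrans htop
    refine not_log_gt δ hσ0 hδ hδtop fun P hP hσP => ?_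
    have hPC : ∀ x ∈ C, x ≠ 0 → P.ord x = 0 := fun x hx h0 => hP x (hδC x hx) h0
    have hreg : ∀ x ∈ C, Ge P 0 x := fun x hx => by
      by_cases h0 : x = 0
      · exact Or.inl h0
      · exact Or.inr (hPC x hx h0).ge
    have hτr : 0 ≤ P.ord τ := by
      have h0 : Ge P 0 σ := Or.inr hσP.ge
      have h1 : Ge P 0 (σ - a) := h0.sub (hreg a haC)
      have h2 : Ge P 0 b⁻¹ := hreg _ (inv_mem hbC)
      have h3 := h1.mul h2
      rw [← div_eq_mul_inv, ← hτσ, add_zero] at h3
      exact h3.resolve_left hτ0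
    refine h.not_off hPC hτr fun j => ?_
    by_cases hj : lin (lq j) e = 0
    · refine hPC _ ?_ (div_ne_zero (h.lq_ne j) h.c_ne)
      rw [h.lin_u, hj, zero_mul, add_zero]
      exact lin_mem C _ h.z_mem
    · rw [he j j2 hj hj2]
      exact hσP

end Pool.Agent.W603.GX
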