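import Pool.Agent.W603.GX.Good

/-!
The additive flow on a component of a quasi-projective variety given by sums of few high powers of
linear forms.
-/

set_option autoImplicit false

open FF IntermediateField Pool.Agent.W603.LV Pool.Agent.W603.GR Pool.Agent.W603.GW
  Pool.Agent.W602.GT

namespace Pool.Agent.W603.GX

variable {k : Type} [Field k] {n : ℕ} {ι κ : Type}

/-- Homogeneous coordinates of the points of the quasi-projective variety
`X = {F_i = 0 for all i, Q_j ≠ 0 for all j}` in `P^n`. -/
def PtsQ (F : ι → MvPolynomial (Fin (n + 1)) k) (Q : κ → MvPolynomial (Fin (n + 1)) k) :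
    Set (Fin (n + 1) → k) :=
  {x | x ≠ 0 ∧ (∀ i, val x (F i) = 0) ∧ ∀ j, val x (Q j) ≠ 0}

/-- The closed subvariety with generic point `y` is an irreducible component of the
quasi-projective variety `X = {F_i = 0, Q_j ≠ 0}`: it contains the part of `X` where some form,
nonzero at `y`, does not vanish. -/
def IsComponentQ (F : ι → MvPolynomial (Fin (n + 1)) k) (Q : κ → MvPolynomial (Fin (n + 1)) k)
    {K : Type} [Field K] [Algebra k K] (y : Fin (n + 1) → K) : Prop :=
  ∃ H : MvPolynomial (Fin (n + 1)) k, IsForm H ∧ val y H ≠ 0 ∧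
    ∀ x ∈ PtsQ F Q, val x H ≠ 0 → x ∈ VarPts k y

theorem val_prod {L : Type} [Field L] [Algebra k L] (x : Fin (n + 1) → L) {α : Type}
    (s : Finset α) (G : α → MvPolynomial (Fin (n + 1)) k) :
    val x (∏ j ∈ s, G j) = ∏ j ∈ s, val x (G j) := by
  unfold Pool.Agent.W602.GT.val
  rw [map_prod]

/-- A point over an extension which specialises to the generic point of a component has the same
relations. -/
theorem same_relQ [IsAlgClosed k] [Finite κ] {F : ι → MvPolynomial (Fin (n + 1)) k}
    {Q : κ → MvPolynomial (Fin (n + 1)) k} {K : Type} [Field K]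
    [Algebra k K] {y : Fin (n + 1) → K} (hcomp : IsComponentQ F Q y) {L : Type} [Field L]
    [Algebra k L] {y' : Fin (n + 1) → L} (hy0 : y' ≠ 0) (hyF : ∀ e, val y' (F e) = 0)
    (hyQ : ∀ j, val y (Q j) ≠ 0) (hQ : ∀ j, IsForm (Q j))
    (hspec : ∀ G : MvPolynomial (Fin (n + 1)) k, IsForm G → val y' G = 0 → val y G = 0)
    (G : MvPolynomial (Fin (n + 1)) k) (hG : IsForm G) : val y G = 0 ↔ val y' G = 0 := by
  classical
  have := Fintype.ofFinite κ
  refine ⟨fun h => ?_, hspec G hG⟩
  obtain ⟨H, hH, hHy, hcone⟩ := hcomp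
  have h1 : val y' (H * G * ∏ j, Q j) = 0 := by
    refine val_of_cone (U := ∅) hy0 (fun j hj => absurd hj (Set.notMem_empty j)) hyF ?_
    intro x hx
    rw [val_mul, val_mul, val_prod]
    by_cases h0 : val x H = 0
    · rw [h0, zero_mul, zero_mul]
    by_cases h2 : ∃ j, val x (Q j) = 0
    · obtain ⟨j, hj⟩ := h2
      rw [Finset.prod_eq_zero (Finset.mem_univ j) hj, mul_zero]
    · push Not at h2
      rw [(hcone x ⟨hx.1, hx.2.2, h2⟩ h0).2 G hG h, mul_zero, zero_mul]
  rw [val_mul, val_mul, val_prod] at h1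
  have h2 : ∏ j, val y' (Q j) ≠ 0 := Finset.prod_ne_zero_iff.2 fun j _ h0 =>
    hyQ j (hspec _ (hQ j) h0)
  have h3 := (mul_eq_zero.1 h1).resolve_right h2
  exact (mul_eq_zero.1 h3).resolve_left fun h0 => hHy (hspec H hH h0)

theorem InV.scale {K : Type} [Field K] [Algebra k K]
    {Pr : Set ((Fin (n + 1) → k) × (Fin (n + 1) → k))} {y : Fin (n + 1) → K} {M : Type} [Field M]
    [Algebra k M] [Algebra K M] {x : Fin (n + 1) → M} (h : InV Pr y x) (c : M) :
    InV Pr y (fun i => x i / c) := by
  refine ⟨fun l hl => ?_, fun p hp => ?_⟩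
  · rw [lin_div, h.1 l hl, zero_div]
  · rw [lin_div, lin_div, h.2 p hp, mul_div_assoc]

/-- the subfield on which two embeddings agree -/
def fixF {K L : Type} [Field K] [Algebra k K] [Field L] [Algebra k L] (φ ψ : K →ₐ[k] L) :
    IntermediateField k K :=
  { AlgHom.equalizer φ ψ with
    inv_mem' := fun x hx => by
      have h1 : φ x = ψ x := hx
      change φ x⁻¹ = ψ x⁻¹
      rw [map_inv₀, map_inv₀, h1] }

theorem mem_fixF {K L : Type} [Field K] [Algebra k K] [Field L] [Algebra k L]
    {φ ψ : K →ₐ[k] L} {x : K} : x ∈ fixF φ ψ ↔ φ x = ψ x := Iff.rfl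

/-- **Additive flows.** -/
theorem flow [IsAlgClosed k] [Finite κ] {F : ι → MvPolynomial (Fin (n + 1)) k}
    {Q : κ → MvPolynomial (Fin (n + 1)) k} (hQh : ∀ j, IsForm (Q j))
    {K : Type} [Field K] [Algebra k K] {w : ℕ} {y : Fin (n + 1) → K} (hy : SubVarQ F Q K w y)
    (hcomp : IsComponentQ F Q y) {Pr : Set ((Fin (n + 1) → k) × (Fin (n + 1) → k))}
    {lq : κ → Fin (n + 1) → k} (hG : Good F Q y Pr lq) (v : Fin (n + 1) → K)
    (hvZ : ∀ l : Fin (n + 1) → k, lin l y = 0 → lin l v = 0)
    (hvQ : ∀ p ∈ Pr, lin p.1 v = lin p.1 y / lin p.2 y * lin p.2 v) {ls : Fin (n + 1) → k}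
    (hls : lin ls y ≠ 0) (hlv : lin ls v = 0) {j0 : Fin (n + 1)} (hvj : v j0 ≠ 0) :
    ∃ (C : IntermediateField k K) (z e : Fin (n + 1) → K),
      Transcendental C (y j0 / lin ls y) ∧ C⟮y j0 / lin ls y⟯ = ⊤ ∧ (∀ l, z l ∈ C) ∧
      (∀ l, e l ∈ C) ∧ (∀ l, y l / lin ls y = z l + e l * (y j0 / lin ls y)) ∧
      (∀ l : Fin (n + 1) → k, lin l v = 0 → lin l e = 0) ∧
      (∀ j, val y (Q j) / lin (lq j) y ^ (Q j).totalDegree ∈ C) ∧ e j0 = 1 ∧
      (∀ G : MvPolynomial (Fin (n + 1)) k, IsForm G → val y G = 0 → ∀ t : K,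
        val (fun l => y l + t * e l) G = 0) ∧
      ∀ (t : K) (j : κ), val (fun l => y l + t * e l) (Q j) =
        val y (Q j) / lin (lq j) y ^ (Q j).totalDegree *
          (lin (lq j) y + t * lin (lq j) e) ^ (Q j).totalDegree := by
  classical
  obtain ⟨i0, hi0'⟩ := Function.ne_iff.1 hy.ne
  have hi0 : y i0 ≠ 0 := hi0'
  set E : IntermediateField k K := IntermediateField.adjoin k
    {z | ∃ p ∈ Pr, z = lin p.1 y / lin p.2 y} with hE
  have hrE : ∀ p ∈ Pr, lin p.1 y / lin p.2 y ∈ E := fun p hp =>
    IntermediateField.subset_adjoin k _ ⟨p, hp, rfl⟩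
  -- a vector defined over `E`
  obtain ⟨ℓ, hℓ⟩ : ∃ ℓ : K →ₗ[E] E, ℓ (v j0) ≠ 0 := by
    by_contra hcon
    push Not at hcon
    exact hvj ((Module.forall_dual_apply_eq_zero_iff E (v j0)).1 hcon)
  let e : Fin (n + 1) → E := fun l => ℓ (v l) / ℓ (v j0)
  have heJ : (e j0 : K) = 1 := by
    simp only [e]
    rw [div_self hℓ]
    rfl
  have hle : ∀ l : Fin (n + 1) → k, lin l (fun i => (e i : K)) =
      ((ℓ (lin l v) / ℓ (v j0) : E) : K) := by
    intro l
    unfold lin
    rw [map_sum]
    have h1 : ∀ i, ℓ (algebraMap k K (l i) * v i) = algebraMap k E (l i) * ℓ (v i) := by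
      intro i
      have h2 : algebraMap k K (l i) * v i = (algebraMap k E (l i)) • v i := by
        rw [Algebra.smul_def]
        rfl
      rw [h2, map_smul, smul_eq_mul]
    simp only [h1]
    rw [Finset.sum_div]
    push_cast
    refine Finset.sum_congr rfl fun i _ => ?_
    simp only [e]
    push_cast
    rw [mul_div_assoc]
  have hle0 : ∀ l : Fin (n + 1) → k, lin l v = 0 → lin l (fun i => (e i : K)) = 0 := by
    intro l hl
    rw [hle, hl, map_zero, zero_div]
    rfl
  have hQe : ∀ p ∈ Pr, lin p.1 (fun i => (e i : K)) =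
      (lin p.1 y / lin p.2 y) * lin p.2 (fun i => (e i : K)) := by
    intro p hp
    rw [hle, hle, hvQ p hp]
    have h2 : (lin p.1 y / lin p.2 y) * lin p.2 v =
        (⟨lin p.1 y / lin p.2 y, hrE p hp⟩ : E) • lin p.2 v := by
      rw [Algebra.smul_def]
      rfl
    rw [h2, map_smul, smul_eq_mul, mul_div_assoc]
    rfl
  -- the flow
  have hinj : Function.Injective (algebraMap (Polynomial K) (RatFunc K)) :=
    RatFunc.algebraMap_injective K
  let P : Fin (n + 1) → Polynomial K := fun l =>
    Polynomial.C (y l) + Polynomial.C (lin ls y * e l) * Polynomial.X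
  let y' : Fin (n + 1) → RatFunc K := fun l => algebraMap (Polynomial K) (RatFunc K) (P l)
  have hC : ∀ c : K, algebraMap (Polynomial K) (RatFunc K) (Polynomial.C c) =
      algebraMap K (RatFunc K) c := fun c => by
    rw [IsScalarTower.algebraMap_apply K (Polynomial K) (RatFunc K)]
    rfl
  have hy'l : ∀ l, y' l = 1 * algebraMap K (RatFunc K) (y l) +
      RatFunc.X * algebraMap K (RatFunc K) (lin ls y) * algebraMap K (RatFunc K) (e l) := by
    intro l
    simp only [y', P]
    rw [map_add, map_mul, hC, hC, RatFunc.algebraMap_X, map_mul]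
    ring
  have hlinmap : ∀ (l : Fin (n + 1) → k) (x : Fin (n + 1) → K),
      algebraMap K (RatFunc K) (lin l x) =
      lin l (fun i => algebraMap K (RatFunc K) (x i)) := fun l x =>
    lin_map (IsScalarTower.toAlgHom k K (RatFunc K)) l x
  have hliny' : ∀ l : Fin (n + 1) → k, lin l y' = algebraMap K (RatFunc K) (lin l y) +
      RatFunc.X * algebraMap K (RatFunc K) (lin ls y) *
        algebraMap K (RatFunc K) (lin l (fun i => (e i : K))) := by
    intro l
    have h1 : y' = fun i => 1 * algebraMap K (RatFunc K) (y i) +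
      (RatFunc.X * algebraMap K (RatFunc K) (lin ls y)) * algebraMap K (RatFunc K) (e i) := by
      funext i
      exact hy'l i
    rw [h1, lin_add_smul, ← hlinmap l y, ← hlinmap l (fun i => (e i : K))]
    ring
  have hInV : InV Pr y y' := by
    refine ⟨fun l hl => ?_, fun p hp => ?_⟩
    · rw [hliny', hl, hle0 l (hvZ l hl), map_zero, mul_zero, add_zero]
    · rw [hliny', hliny', hQe p hp]
      obtain ⟨h1, h2⟩ := hG.ne p hp
      have h3 : algebraMap K (RatFunc K) (lin p.2 y) ≠ 0 := by rw [Ne, map_eq_zero]; exact h2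
      rw [map_mul, map_div₀]
      field_simp
  have hyF : ∀ a, val y' (F a) = 0 := hG.van (RatFunc K) y' hInV
  have hspec : ∀ G : MvPolynomial (Fin (n + 1)) k, IsForm G → val y' G = 0 → val y G = 0 := by
    intro G _ h1
    obtain ⟨R, hR1, hR2⟩ := val_polyK P G
    have h2 : R = 0 := hinj (by rw [hR2, map_zero]; exact h1)
    have h3 := hR1 0
    rw [h2, Polynomial.eval_zero] at h3
    have h4 : (fun l => (P l).eval 0) = y := by
      funext l
      simp [P]
    rw [h4] at h3
    exact h3.symm
  have hlsy' : lin ls y' = algebraMap K (RatFunc K) (lin ls y) := by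
    rw [hliny', hle0 ls hlv, map_zero, mul_zero, add_zero]
  have hlsy0 : algebraMap K (RatFunc K) (lin ls y) ≠ 0 := by rw [Ne, map_eq_zero]; exact hls
  have hy'ne : y' ≠ 0 := by
    intro h1
    apply hlsy0
    rw [← hlsy', h1]
    unfold lin
    simp
  have hrel := same_relQ hcomp hy'ne hyF hy.off hQh hspec
  have hy'i0 : y' i0 ≠ 0 := by
    intro h0
    apply hi0
    have h1 : val y' (MvPolynomial.X i0 : MvPolynomial (Fin (n + 1)) k) = 0 := by
      unfold Pool.Agent.W602.GT.val
      rw [MvPolynomial.aeval_X]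
      exact h0
    have h2 := hspec _ ⟨1, MvPolynomial.isHomogeneous_X k i0⟩ h1
    unfold Pool.Agent.W602.GT.val at h2
    rwa [MvPolynomial.aeval_X] at h2
  obtain ⟨φ, hφ⟩ := exists_embedding (L := RatFunc K) hi0 hy'i0 hy.gen hrel
  let u : Fin (n + 1) → K := fun l => y l / lin ls y
  have hφu : ∀ l, φ (u l) = algebraMap K (RatFunc K) (u l) +
      RatFunc.X * algebraMap K (RatFunc K) (e l) := by
    intro l
    have h1 : φ (lin ls y / y i0) = lin ls y' / y' i0 := by
      rw [← lin_div, ← lin_div, lin_map]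
      congr 1
      funext i
      exact hφ i
    have h2 : u l = (y l / y i0) / (lin ls y / y i0) := by
      simp only [u]
      field_simp
    rw [h2, map_div₀, hφ, h1, hlsy', hy'l]
    have h3 : y l / y i0 / (lin ls y / y i0) = y l / lin ls y := by field_simp
    rw [h3, map_div₀]
    field_simp
  let ψ : K →ₐ[k] RatFunc K := IsScalarTower.toAlgHom k K (RatFunc K)
  have hψ : ∀ x, ψ x = algebraMap K (RatFunc K) x := fun x => rfl
  set C : IntermediateField k K := fixF φ ψ with hCdef
  have hlinu : ∀ l : Fin (n + 1) → k, lin l u = lin l y / lin ls y := fun l =>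
    lin_div l y (lin ls y)
  have hφlin : ∀ l : Fin (n + 1) → k, φ (lin l u) = algebraMap K (RatFunc K) (lin l u) +
      RatFunc.X * algebraMap K (RatFunc K) (lin l (fun i => (e i : K))) := by
    intro l
    rw [lin_map, hlinmap l u, hlinmap l (fun i => (e i : K))]
    have h7 := lin_add_smul l (fun i => algebraMap K (RatFunc K) (u i))
      (fun i => algebraMap K (RatFunc K) (e i)) 1 RatFunc.X
    simp only [one_mul] at h7
    rw [← h7]
    congr 1
    funext i
    exact hφu i
  have hEC : E ≤ C := by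
    rw [hE, IntermediateField.adjoin_le_iff]
    rintro x ⟨p, hp, rfl⟩
    change φ _ = algebraMap K (RatFunc K) _
    obtain ⟨h1, h2⟩ := hG.ne p hp
    have h4 : lin p.1 y / lin p.2 y = lin p.1 u / lin p.2 u := by
      rw [hlinu, hlinu]
      field_simp
    have hu2 : lin p.2 u ≠ 0 := by rw [hlinu]; exact div_ne_zero h2 hls
    have h6 : φ (lin p.2 u) ≠ 0 := by rw [Ne, map_eq_zero]; exact hu2
    have h7 : φ (lin p.1 u) = algebraMap K (RatFunc K) (lin p.1 u / lin p.2 u) *
        φ (lin p.2 u) := by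
      rw [hφlin, hφlin, hQe p hp, h4]
      have h8 : algebraMap K (RatFunc K) (lin p.2 u) ≠ 0 := by rw [Ne, map_eq_zero]; exact hu2
      rw [map_mul, map_div₀]
      field_simp
    rw [h4, map_div₀, h7]
    field_simp
  let z : Fin (n + 1) → K := fun l => u l - e l * u j0
  have hφe : ∀ l, φ (e l : K) = algebraMap K (RatFunc K) (e l) := fun l => hEC (e l).2
  have hzC : ∀ l, z l ∈ C := by
    intro l
    change φ _ = algebraMap K (RatFunc K) _
    simp only [z]
    rw [map_sub, map_mul, hφu, hφu, hφe, heJ, map_sub, map_mul, map_one]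
    ring
  have huz : ∀ l, u l = z l + e l * u j0 := by
    intro l
    simp only [z]
    ring
  refine ⟨C, z, fun l => (e l : K), ?_, ?_, hzC, fun l => hEC (e l).2, huz, hle0, ?_, heJ, ?_,
    ?_⟩
  · intro halg
    let φ' : K →ₐ[C] RatFunc K := { φ with
      commutes' := fun c => by
        change φ (c : K) = _
        exact c.2 }
    have h1 : IsAlgebraic C (φ' (u j0)) := halg.algHom φ'
    have h2 : IsAlgebraic K (φ' (u j0)) := h1.tower_top K
    have h3 : φ' (u j0) = algebraMap K (RatFunc K) (u j0) + RatFunc.X := by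
      change φ (u j0) = _
      rw [hφu, heJ, map_one, mul_one]
    rw [h3] at h2
    have h4 := h2.sub (isAlgebraic_algebraMap (A := RatFunc K) (u j0))
    rw [add_sub_cancel_left] at h4
    exact RatFunc.transcendental_X h4
  · change C⟮u j0⟯ = ⊤
    have h1 : (C⟮u j0⟯).restrictScalars k = ⊤ := by
      rw [eq_top_iff, ← hy.gen]
      unfold coords
      rw [IntermediateField.adjoin_le_iff]
      have hu : ∀ l, u l ∈ C⟮u j0⟯ := by
        intro l
        rw [huz l]
        refine add_mem ?_ (mul_mem ?_ (IntermediateField.mem_adjoin_simple_self _ _))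
        · exact (C⟮u j0⟯).algebraMap_mem (⟨z l, hzC l⟩ : C)
        · exact (C⟮u j0⟯).algebraMap_mem (⟨e l, hEC (e l).2⟩ : C)
      rintro _ ⟨a, b, hb, rfl⟩
      have h3 := div_mem (hu a) (hu b)
      simp only [u] at h3
      have h4 : y a / lin ls y / (y b / lin ls y) = y a / y b := by field_simp
      rw [h4] at h3
      exact h3
    rw [eq_top_iff]
    intro x _
    have h2 : x ∈ (C⟮u j0⟯).restrictScalars k := by
      rw [h1]; exact IntermediateField.mem_top
    exact h2
  · intro j
    change φ _ = algebraMap K (RatFunc K) _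
    have hyy : InV Pr y y := by
      refine ⟨fun l hl => hl, fun p hp => ?_⟩
      have h2 := (hG.ne p hp).2
      change lin p.1 y = lin p.1 y / lin p.2 y * lin p.2 y
      field_simp
    have hyu : InV Pr y u := hyy.scale (lin ls y)
    have h1 := hG.lq_val K u hyu j
    have h0 : lin (lq j) u ≠ 0 := by rw [hlinu]; exact div_ne_zero (hG.lq_ne j) hls
    set c := val y (Q j) / lin (lq j) y ^ (Q j).totalDegree with hc
    change val u (Q j) = c * lin (lq j) u ^ (Q j).totalDegree at h1
    have hyu' : InV Pr y (fun l => φ (u l)) := by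
      have h2 := hInV.scale (algebraMap K (RatFunc K) (lin ls y))
      have h3 : (fun l => φ (u l)) = fun l => y' l / algebraMap K (RatFunc K) (lin ls y) := by
        funext l
        rw [hφu, hy'l]
        simp only [u]
        rw [map_div₀]
        field_simp
      rw [h3]
      exact h2
    have h2 := hG.lq_val (RatFunc K) _ hyu' j
    rw [← val_map, ← lin_map, h1, map_mul, map_pow] at h2
    have h3 : φ (lin (lq j) u) ^ (Q j).totalDegree ≠ 0 := pow_ne_zero _ (by
      rw [Ne, map_eq_zero]; exact h0)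
    exact mul_right_cancel₀ h3 h2
  · intro G hGf hG0 t
    have h1 := (hrel G hGf).1 hG0
    obtain ⟨R, hR1, hR2⟩ := val_polyK P G
    have h2 : R = 0 := hinj (by rw [hR2, map_zero]; exact h1)
    have h3 := hR1 (t / lin ls y)
    rw [h2, Polynomial.eval_zero] at h3
    have h4 : (fun l => (P l).eval (t / lin ls y)) = fun l => y l + t * (e l : K) := by
      funext l
      simp only [P, Polynomial.eval_add, Polynomial.eval_mul, Polynomial.eval_C,
        Polynomial.eval_X]
      field_simp
    rw [h4] at h3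
    exact h3.symm
  · intro t j
    have h0 : ∀ l : Fin (n + 1) → k, lin l (fun i => y i + t * (e i : K)) =
        lin l y + t * lin l (fun i => (e i : K)) := by
      intro l
      have h7 := lin_add_smul l y (fun i => (e i : K)) 1 t
      simp only [one_mul] at h7
      exact h7
    have hyt : InV Pr y (fun i => y i + t * (e i : K)) := by
      refine ⟨fun l hl => ?_, fun p hp => ?_⟩
      · rw [h0, hl, hle0 l (hvZ l hl), mul_zero, add_zero]
      · rw [h0, h0, hQe p hp]
        have h2 := (hG.ne p hp).2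
        change lin p.1 y + _ = lin p.1 y / lin p.2 y * _
        field_simp
    have h1 := hG.lq_val K _ hyt j
    rw [h0] at h1
    exact h1

end Pool.Agent.W603.GX
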