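import Pool.Agent.W603.GX.Units
import Pool.Agent.W603.GW.Line
import Pool.Agent.W602.GT.KFlow

/-!
The linear spaces through the generic point of a component of a quasi-projective variety given by
sums of few high powers of linear forms.
-/

set_option autoImplicit false

open FF MvPolynomial Pool.Agent.W603.LV Pool.Agent.W603.GR Pool.Agent.W603.GW
  Pool.Agent.W602.GT

namespace Pool.Agent.W603.GX

variable {k : Type} [Field k] {n : ℕ} {ι κ : Type}

/-- `x` satisfies all linear equations with coefficients in `k` which `y` satisfies, and the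
linear equations given by the ratios of the pairs in `Pr` -/
def InV {K : Type} [Field K] [Algebra k K] (Pr : Set ((Fin (n + 1) → k) × (Fin (n + 1) → k)))
    (y : Fin (n + 1) → K) {M : Type} [Field M] [Algebra k M] [Algebra K M]
    (x : Fin (n + 1) → M) : Prop :=
  (∀ l : Fin (n + 1) → k, lin l y = 0 → lin l x = 0) ∧
    ∀ p ∈ Pr, lin p.1 x = algebraMap K M (lin p.1 y / lin p.2 y) * lin p.2 x

/-- the pairs `Pr` define linear spaces through `y` in the variety, and the forms `Q` are powers of
linear forms on them -/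
structure Good {K : Type} [Field K] [Algebra k K] (F : ι → MvPolynomial (Fin (n + 1)) k)
    (Q : κ → MvPolynomial (Fin (n + 1)) k) (y : Fin (n + 1) → K)
    (Pr : Set ((Fin (n + 1) → k) × (Fin (n + 1) → k))) (lq : κ → Fin (n + 1) → k) : Prop where
  ne : ∀ p ∈ Pr, lin p.1 y ≠ 0 ∧ lin p.2 y ≠ 0
  van : ∀ (M : Type) [Field M] [Algebra k M] [Algebra K M] [IsScalarTower k K M]
    (x : Fin (n + 1) → M), InV Pr y x → ∀ i, val x (F i) = 0
  lq_ne : ∀ j, lin (lq j) y ≠ 0
  lq_val : ∀ (M : Type) [Field M] [Algebra k M] [Algebra K M] [IsScalarTower k K M]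
    (x : Fin (n + 1) → M), InV Pr y x → ∀ j, val x (Q j) =
      algebraMap K M (val y (Q j) / lin (lq j) y ^ (Q j).totalDegree) *
        lin (lq j) x ^ (Q j).totalDegree

/-- the pairs of linear forms with constant ratio -/
def PrD {K : Type} [Field K] [Algebra k K] (D : Derivation k K K) (y : Fin (n + 1) → K) :
    Set ((Fin (n + 1) → k) × (Fin (n + 1) → k)) :=
  {p | lin p.1 y ≠ 0 ∧ lin p.2 y ≠ 0 ∧ D (lin p.1 y / lin p.2 y) = 0}

section der

variable {K : Type} [Field K] [Algebra k K] (D : Derivation k K K)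

theorem der_div_trans {a b c : K} (hb : b ≠ 0) (h1 : D (a / b) = 0) (h2 : D (b / c) = 0) :
    D (a / c) = 0 := by
  have h3 : a / c = (a / b) * (b / c) := by field_simp
  rw [h3, D.leibniz, h1, h2, smul_zero, smul_zero, add_zero]

theorem der_div_symm {a b : K} (h1 : D (a / b) = 0) : D (b / a) = 0 := by
  have h3 : b / a = (a / b)⁻¹ := by rw [inv_div]
  rw [h3, D.leibniz_inv, h1, smul_zero]

theorem der_div_self {a : K} (ha : a ≠ 0) : D (a / a) = 0 := by
  rw [div_self ha, D.map_one_eq_zero]

theorem der_pow_zero [CharZero K] {z : K} (hz : z ≠ 0) {d : ℕ} (hd : 0 < d) (h : D (z ^ d) = 0) :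
    D z = 0 := by
  rw [D.leibniz_pow] at h
  simp only [nsmul_eq_mul, smul_eq_mul] at h
  have h1 : (d : K) ≠ 0 := by exact_mod_cast hd.ne'
  exact (mul_eq_zero.1 ((mul_eq_zero.1 h).resolve_left h1)).resolve_left (pow_ne_zero _ hz)

theorem der_pow_div [CharZero K] {a b : K} (ha : a ≠ 0) (hb : b ≠ 0) {d : ℕ} (hd : 0 < d)
    (h : D (a ^ d / b ^ d) = 0) : D (a / b) = 0 := by
  rw [← div_pow] at h
  exact der_pow_zero D (div_ne_zero ha hb) hd h

theorem der_div_neg {a b : K} (h : D (a / -b) = 0) : D (a / b) = 0 := by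
  rw [div_neg, map_neg, neg_eq_zero] at h
  exact h

end der

theorem val_powM {r d : ℕ} (l : Fin r → Fin (n + 1) → k) {M : Type} [Field M] [Algebra k M]
    (x : Fin (n + 1) → M) :
    val x (∑ j, (∑ i, C (l j i) * X i) ^ d) = ∑ j, lin (l j) x ^ d := val_pow l x

/-- **The terms.** -/
theorem terms [IsAlgClosed k] [CharZero k] {K : Type} [Field K] [Algebra k K]
    {F : ι → MvPolynomial (Fin (n + 1)) k} {Q : κ → MvPolynomial (Fin (n + 1)) k} {S N : ℕ}
    (hF : ∀ i, IsPowSum S N (F i)) (hQ : ∀ j, IsPowSum (S - 1) N (Q j)) (hN1 : 1 ≤ N)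
    (hN : n * ((S + 1) * tn (S - 1)) ≤ N) {w : ℕ} {y : Fin (n + 1) → K}
    (hy : SubVarQ F Q K w y) :
    ∃ (J : ι ⊕ κ → Type) (_ : ∀ e, Fintype (J e)) (g : ∀ e, J e → K), (∀ e j, g e j ≠ 0) ∧
      (∀ e, Fintype.card (J e) ≤ S) ∧
      (∀ P : Place k K, ¬ OffAny Q y P → ∀ e i j, P.ord (g e i) = P.ord (g e j) ∨
        ((w * ((S + 1) * tn (S - 1)) : ℕ) : ℤ) ≤ |P.ord (g e i) - P.ord (g e j)|) ∧
      ∀ D : Derivation k K K, (∀ e (C : CD k (g e)) (a b : Fin (C.m + 1)),
        D (g e (C.e a) / g e (C.e b)) = 0) → ∃ lq, Good F Q y (PrD D y) lq ∧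
          ∀ j, D (lin (lq j) y ^ (Q j).totalDegree / val y (Q j)) = 0 := by
  classical
  have hgen : Algebra.IsAlgebraic (coords k y) K := by
    rw [hy.gen]
    infer_instance
  have hwn := dim_le hy.ne hgen hy.dim
  have hK : CharZero K := charZero_of_injective_algebraMap (algebraMap k K).injective
  choose r d l hr hd hFe using hF
  choose r' d' l' hr' hd' hQe using hQ
  have hQne : ∀ j, Q j ≠ 0 := by
    intro j h0
    apply hy.off j
    rw [h0]
    unfold Pool.Agent.W602.GT.val
    rw [map_zero]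
  have hdeg : ∀ j, (Q j).totalDegree = d' j := by
    intro j
    have h1 := hom_pow (d := d' j) (l' j)
    rw [← hQe j] at h1
    exact h1.totalDegree (hQne j)
  have hS1 : ∀ j, r' j + 1 ≤ S := by
    intro j
    by_contra hcon
    have h1 := hr' j
    have h2 : r' j = 0 := by omega
    apply hQne j
    rw [hQe j]
    apply Finset.sum_eq_zero
    intro a
    exact absurd a.2 (by omega)
  have hd0 : ∀ e, 0 < d e := fun e => lt_of_lt_of_le hN1 (hd e)
  have hd0' : ∀ e, 0 < d' e := fun e => lt_of_lt_of_le hN1 (hd' e)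
  have hvF : ∀ {M : Type} [Field M] [Algebra k M] (x : Fin (n + 1) → M) i,
      val x (F i) = ∑ a, lin (l i a) x ^ d i := fun x i => by
    conv_lhs => rw [hFe i]
    exact val_powM _ _
  have hvQ : ∀ {M : Type} [Field M] [Algebra k M] (x : Fin (n + 1) → M) j,
      val x (Q j) = ∑ a, lin (l' j a) x ^ d' j := fun x j => by
    conv_lhs => rw [hQe j]
    exact val_powM _ _
  -- the terms
  let R : ι ⊕ κ → ℕ := Sum.elim r (fun j => r' j + 1)
  let T : ∀ e, Fin (R e) → K := fun e => match e with
    | Sum.inl i => fun a => lin (l i a) y ^ d i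
    | Sum.inr j => Fin.cons (-val y (Q j)) fun a => lin (l' j a) y ^ d' j
  let E : ι ⊕ κ → ℕ := Sum.elim d d'
  let J : ι ⊕ κ → Type := fun e => {a : Fin (R e) // T e a ≠ 0}
  let g : ∀ e, J e → K := fun e a => T e a.1
  have hg : ∀ e j, g e j ≠ 0 := fun e j => j.2
  have hsub : ∀ {M : Type} [Field M] (e : ι ⊕ κ) (f : Fin (R e) → M),
      (∀ a, T e a = 0 → f a = 0) → ∑ a, f a = ∑ a : J e, f a.1 := by
    intro M _ e f hf
    rw [← Finset.sum_subtype (Finset.univ.filter fun a => T e a ≠ 0) (by simp) f,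
      Finset.sum_filter_of_ne]
    intro a _ ha h0
    exact ha (hf a h0)
  have hT0 : ∀ e, ∑ a, T e a = 0 := by
    rintro (i | j)
    · change ∑ a, lin (l i a) y ^ d i = 0
      rw [← hvF]
      exact hy.mem i
    · change ∑ a : Fin (r' j + 1), (Fin.cons (-val y (Q j)) fun a => lin (l' j a) y ^ d' j :
        Fin (r' j + 1) → K) a = 0
      rw [Fin.sum_univ_succ]
      simp only [Fin.cons_zero, Fin.cons_succ]
      rw [← hvQ]
      ring
  have hsum : ∀ e, ∑ j, g e j = 0 := by
    intro e
    have h1 := hsub e (T e) fun a h => h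
    rw [hT0 e] at h1
    exact h1.symm
  have hR : ∀ e, R e ≤ S := by
    rintro (i | j)
    · exact hr i
    · exact hS1 j
  have hE : ∀ e, N ≤ E e := by
    rintro (i | j)
    · exact hd i
    · exact hd' j
  have hcard : ∀ e, Fintype.card (J e) ≤ S := fun e =>
    (Fintype.card_subtype_le _).trans (by rw [Fintype.card_fin]; exact hR e)
  have hord : ∀ P : Place k K, ¬ OffAny Q y P → ∀ e (a : J e), ∃ c : ℤ,
      P.ord (g e a) = E e * c := by
    intro P hP
    obtain ⟨i0, h0, hmin⟩ := exists_min P hy.ne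
    rintro (i | j) ⟨a, ha⟩
    · refine ⟨P.ord (lin (l i a) y), ?_⟩
      change P.ord (lin (l i a) y ^ d i) = _
      rw [P.ord_pow]
      rfl
    · have hQo : P.ord (val y (Q j)) = d' j * P.ord (y i0) := by
        have h1 : ¬ OffQ (Q j) (Q j).totalDegree y P := fun h => hP ⟨j, h⟩
        unfold OffQ at h1
        push Not at h1
        rw [hdeg] at h1
        have h2 := hom_pow (d := d' j) (l' j)
        rw [← hQe j] at h2
        exact le_antisymm (h1 i0 h0) (ord_form P h0 hmin h2 (hy.off j))
      change ∃ c : ℤ, P.ord ((Fin.cons (-val y (Q j)) fun a => lin (l' j a) y ^ d' j :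
        Fin (r' j + 1) → K) a) = d' j * c
      change Fin (r' j + 1) at a
      refine Fin.cases ?_ (fun b => ?_) a
      · refine ⟨P.ord (y i0), ?_⟩
        rw [Fin.cons_zero, P.ord_neg, hQo]
      · refine ⟨P.ord (lin (l' j b) y), ?_⟩
        rw [Fin.cons_succ, P.ord_pow]
  have hjump : ∀ P : Place k K, ¬ OffAny Q y P → ∀ e (a b : J e),
      P.ord (g e a) = P.ord (g e b) ∨
      ((w * ((S + 1) * tn (S - 1)) : ℕ) : ℤ) ≤ |P.ord (g e a) - P.ord (g e b)| := by
    intro P hP e a b
    obtain ⟨c, hc⟩ := hord P hP e a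
    obtain ⟨c', hc'⟩ := hord P hP e b
    by_cases h : P.ord (g e a) = P.ord (g e b)
    · exact Or.inl h
    · right
      have h2 : (E e : ℤ) ∣ P.ord (g e a) - P.ord (g e b) := ⟨c - c', by rw [hc, hc']; ring⟩
      have h3 : w * ((S + 1) * tn (S - 1)) ≤ E e :=
        ((Nat.mul_le_mul_right _ hwn).trans hN).trans (hE e)
      have h4 : ((w * ((S + 1) * tn (S - 1)) : ℕ) : ℤ) ≤ E e := by exact_mod_cast h3
      refine h4.trans ?_
      exact Int.le_of_dvd (abs_pos.2 (sub_ne_zero.2 h)) ((dvd_abs _ _).2 h2)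
  refine ⟨J, inferInstance, g, hg, hcard, hjump, fun D hD => ?_⟩
  -- the classes
  have hRe : ∀ e, Equivalence fun a b : J e => D (g e a / g e b) = 0 := fun e =>
    ⟨fun a => der_div_self D (hg e a), fun h => der_div_symm D h,
      fun {a b c} h1 h2 => der_div_trans D (hg e b) h1 h2⟩
  have hcls : ∀ e (j0 : J e) (A : Finset (J e)), (∀ j, j ∈ A ↔ D (g e j0 / g e j) = 0) →
      ∑ j ∈ A, g e j = 0 := by
    intro e j0 A hA
    have h1 := class_zero (k := k) (g e) (hsum e) (fun j => if j ∈ A then (1 : K) else 0) (by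
      intro C a b
      have h2 : C.e a ∈ A ↔ C.e b ∈ A := by
        rw [hA, hA]
        constructor
        · intro h
          exact der_div_trans D (hg e _) h (hD e C a b)
        · intro h
          exact der_div_trans D (hg e _) h (hD e C b a)
      simp only [h2])
    simp only [ite_mul, one_mul, zero_mul] at h1
    rw [← h1, Finset.sum_ite_mem, Finset.univ_inter]
  -- the linear forms of the boundary
  have hz : ∀ j, T (Sum.inr j) (0 : Fin (r' j + 1)) ≠ 0 := by
    intro j
    change (Fin.cons (-val y (Q j)) fun a => lin (l' j a) y ^ d' j : Fin (r' j + 1) → K) 0 ≠ 0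
    rw [Fin.cons_zero]
    exact neg_ne_zero.2 (hy.off j)
  have hlq : ∀ j, ∃ b : Fin (r' j), lin (l' j b) y ≠ 0 ∧
      D (lin (l' j b) y ^ d' j / val y (Q j)) = 0 := by
    intro j
    by_contra hcon
    push Not at hcon
    let a0 : J (Sum.inr j) := ⟨(0 : Fin (r' j + 1)), hz j⟩
    have h1 := hcls (Sum.inr j) a0 {a0} (by
      intro a
      rw [Finset.mem_singleton]
      constructor
      · rintro rfl
        exact der_div_self D (hg (Sum.inr j) a0)
      · intro h
        obtain ⟨a, ha⟩ := a
        change Fin (r' j + 1) at a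
        by_cases h0 : a = 0
        · subst h0
          rfl
        · exfalso
          obtain ⟨b, rfl⟩ := Fin.exists_succ_eq.2 h0
          have h2 : lin (l' j b) y ^ d' j ≠ 0 := ha
          have h3 : lin (l' j b) y ≠ 0 := fun h4 => h2 (by rw [h4, zero_pow (hd0' j).ne'])
          apply hcon b h3
          have h5 : D (-val y (Q j) / lin (l' j b) y ^ d' j) = 0 := h
          exact der_div_neg D (der_div_symm D h5))
    rw [Finset.sum_singleton] at h1
    exact hg (Sum.inr j) a0 h1
  choose bq hbq hbqD using hlq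
  refine ⟨fun j => l' j (bq j), ⟨fun p hp => ⟨hp.1, hp.2.1⟩, ?_, hbq, ?_⟩, fun j => ?_⟩
  · intro M _ _ _ _ x hx i
    rw [hvF]
    have h1 := hsub (Sum.inl i) (fun a : Fin (r i) => lin (l i a) x ^ d i) (fun a ha => by
      have h2 : lin (l i a) y ^ d i = 0 := ha
      rw [hx.1 _ (pow_eq_zero_iff (hd0 i).ne' |>.1 h2), zero_pow (hd0 i).ne'])
    change ∑ a : Fin (r i), lin (l i a) x ^ d i = _ at h1
    rw [h1]
    have hy0 : ∀ a : J (Sum.inl i), lin (l i a.1) y ≠ 0 := fun a h0 => a.2 (by
      change lin (l i a.1) y ^ d i = 0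
      rw [h0, zero_pow (hd0 i).ne'])
    have h3 := weighted_sum (fun a b : J (Sum.inl i) => D (g _ a / g _ b) = 0) (hRe _)
      (fun a : J (Sum.inl i) => algebraMap K M (g _ a))
      (fun a => (lin (l i a.1) x / algebraMap K M (lin (l i a.1) y)) ^ d i)
      (fun a b hab => by
        have ha := hy0 a
        have hb := hy0 b
        have h4 := hx.2 (l i a.1, l i b.1) ⟨ha, hb, der_pow_div D ha hb (hd0 i) hab⟩
        simp only at h4
        rw [map_div₀] at h4
        have ha' : algebraMap K M (lin (l i a.1) y) ≠ 0 := by rw [Ne, map_eq_zero]; exact ha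
        have hb' : algebraMap K M (lin (l i b.1) y) ≠ 0 := by rw [Ne, map_eq_zero]; exact hb
        congr 1
        rw [h4]
        field_simp)
      (fun a0 A hA => by
        rw [← map_sum, hcls _ a0 A hA, map_zero])
    refine Eq.trans (Finset.sum_congr rfl fun a _ => ?_) h3
    have ha' : algebraMap K M (lin (l i a.1) y) ≠ 0 := by rw [Ne, map_eq_zero]; exact hy0 a
    change lin (l i a.1) x ^ d i = _ * algebraMap K M (lin (l i a.1) y ^ d i)
    rw [map_pow, ← mul_pow]
    congr 1
    field_simp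
  · intro M _ _ _ _ x hx j
    rw [hdeg]
    set L0 := l' j (bq j) with hL0
    have hL0y : lin L0 y ≠ 0 := hbq j
    have hL0y' : algebraMap K M (lin L0 y) ≠ 0 := by rw [Ne, map_eq_zero]; exact hL0y
    let hh : Fin (r' j + 1) → M := Fin.cons ((lin L0 x / algebraMap K M (lin L0 y)) ^ d' j)
      fun b => (lin (l' j b) x / algebraMap K M (lin (l' j b) y)) ^ d' j
    let TM : Fin (r' j + 1) → M := fun a => algebraMap K M (T (Sum.inr j) a)
    have h1 := hsub (Sum.inr j) (fun a : Fin (r' j + 1) => hh a * TM a) (fun a ha => by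
      change hh a * algebraMap K M (T (Sum.inr j) a) = 0
      rw [ha, map_zero, mul_zero])
    change ∑ a : Fin (r' j + 1), hh a * TM a = _ at h1
    have h3 := weighted_sum (fun a b : J (Sum.inr j) => D (g _ a / g _ b) = 0) (hRe _)
      (fun a : J (Sum.inr j) => algebraMap K M (g _ a))
      (fun a => hh a.1)
      (fun a b hab => by
        have key : ∀ a : J (Sum.inr j), ∃ L : Fin (n + 1) → k, lin L y ≠ 0 ∧
            hh a.1 = (lin L x / algebraMap K M (lin L y)) ^ d' j ∧
            D (lin L y ^ d' j / g _ a) = 0 := by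
          rintro ⟨a, ha⟩
          change Fin (r' j + 1) at a
          revert ha
          refine Fin.cases (fun ha => ?_) (fun b ha => ?_) a
          · refine ⟨L0, hL0y, rfl, ?_⟩
            change D (lin L0 y ^ d' j / -val y (Q j)) = 0
            rw [div_neg, map_neg, neg_eq_zero]
            exact hbqD j
          · have h2 : lin (l' j b) y ^ d' j ≠ 0 := ha
            have h3 : lin (l' j b) y ≠ 0 := fun h4 => h2 (by rw [h4, zero_pow (hd0' j).ne'])
            exact ⟨l' j b, h3, rfl, der_div_self D h2⟩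
        obtain ⟨L, hL, h4, h5⟩ := key a
        obtain ⟨L', hL', h4', h5'⟩ := key b
        rw [h4, h4']
        have h6 : D (lin L y ^ d' j / lin L' y ^ d' j) = 0 :=
          der_div_trans D (hg _ a) h5 (der_div_trans D (hg _ b) hab (der_div_symm D h5'))
        have h7 := hx.2 (L, L') ⟨hL, hL', der_pow_div D hL hL' (hd0' j) h6⟩
        simp only at h7
        rw [map_div₀] at h7
        have ha' : algebraMap K M (lin L y) ≠ 0 := by rw [Ne, map_eq_zero]; exact hL
        have hb' : algebraMap K M (lin L' y) ≠ 0 := by rw [Ne, map_eq_zero]; exact hL'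
        congr 1
        rw [h7]
        field_simp)
      (fun a0 A hA => by
        rw [← map_sum, hcls _ a0 A hA, map_zero])
    have h4 : ∑ a : Fin (r' j + 1), hh a * TM a = 0 := by
      rw [h1, ← h3]
    rw [Fin.sum_univ_succ] at h4
    have h5 : hh 0 * TM 0 = -(algebraMap K M (val y (Q j) / lin L0 y ^ d' j) *
        lin L0 x ^ d' j) := by
      change (lin L0 x / algebraMap K M (lin L0 y)) ^ d' j * algebraMap K M (-val y (Q j)) = _
      rw [map_neg, map_div₀, map_pow, div_pow]
      field_simp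
    have h6 : ∀ b : Fin (r' j), hh b.succ * TM b.succ = lin (l' j b) x ^ d' j := by
      intro b
      change (lin (l' j b) x / algebraMap K M (lin (l' j b) y)) ^ d' j *
        algebraMap K M (lin (l' j b) y ^ d' j) = _
      by_cases h0 : lin (l' j b) y = 0
      · rw [h0, hx.1 _ h0, zero_div, zero_pow (hd0' j).ne', zero_mul]
      · have h0' : algebraMap K M (lin (l' j b) y) ≠ 0 := by rw [Ne, map_eq_zero]; exact h0
        rw [map_pow, div_pow]
        field_simp
    simp only [h6] at h4
    rw [h5] at h4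
    rw [hvQ]
    linear_combination h4
  · rw [hdeg]
    exact hbqD j

end Pool.Agent.W603.GX
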