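import Pool.Agent.W603.GX.Bd

/-!
The logarithmic Kodaira dimension of quasi-projective varieties given by sums of few high powers of
linear forms.
-/

set_option autoImplicit false

open FF IntermediateField Pool.Agent.W603.LV Pool.Agent.W603.GR Pool.Agent.W603.GW
  Pool.Agent.W602.GT

namespace Pool.Agent.W603.GX

variable {k : Type} [Field k] {n : ℕ} {ι κ : Type}

/-- Through the generic point `y` of the variety `V` there is a line, contained in the closure of
`V`, on which all the forms `Q_j` are constant (in the affine coordinate `t` of the line): `V` is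
covered by affine lines. -/
def AffLine {K : Type} [Field K] [Algebra k K] (Q : κ → MvPolynomial (Fin (n + 1)) k)
    (y : Fin (n + 1) → K) : Prop :=
  ∃ v : Fin (n + 1) → K, (∃ i j, y i * v j - y j * v i ≠ 0) ∧
    (∀ G : MvPolynomial (Fin (n + 1)) k, IsForm G → val y G = 0 → ∀ t : K,
      val (fun l => y l + t * v l) G = 0) ∧
    ∀ (t : K) (j : κ), val (fun l => y l + t * v l) (Q j) = val y (Q j)

/-- Through the generic point `y` of the variety `V` there is a line, contained in the closure of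
`V`, on which all the forms `Q_j` but one, `Q_{j_0}`, are constant, and
`Q_{j_0}(y + t v) = Q_{j_0}(y) (1 + m t) ^ deg Q_{j_0}`: `V` is covered by lines that meet the
boundary in at most two points. -/
def PunLine {K : Type} [Field K] [Algebra k K] (Q : κ → MvPolynomial (Fin (n + 1)) k)
    (y : Fin (n + 1) → K) : Prop :=
  ∃ (v : Fin (n + 1) → K) (m : κ → K), (∃ i j, y i * v j - y j * v i ≠ 0) ∧
    (∀ G : MvPolynomial (Fin (n + 1)) k, IsForm G → val y G = 0 → ∀ t : K,
      val (fun l => y l + t * v l) G = 0) ∧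
    (∀ (t : K) (j : κ), val (fun l => y l + t * v l) (Q j) =
      val y (Q j) * (1 + m j * t) ^ (Q j).totalDegree) ∧
    ∀ j j', m j ≠ 0 → m j' ≠ 0 → j = j'

theorem kod_mono {K : Type} [Field K] [Algebra k K] {w h h' : ℕ} {Bd : Place k K → Prop}
    (hk : KodGe k K w Bd h) (hle : h' ≤ h) : KodGe k K w Bd h' := by
  obtain ⟨N, hN, ω, h1, D, hD, h2⟩ := hk
  refine ⟨N, hN, fun j => ω (Fin.castLE (by omega) j), fun j => h1 _, D, hD, ?_⟩
  have h3 := h2.comp (Fin.castLE hle) (Fin.castLE_injective hle)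
  exact h3

theorem lgt_of_kod {K : Type} [Field K] [Algebra k K] {w : ℕ} {Bd : Place k K → Prop}
    (htr : Algebra.trdeg k K = w) (hk : KodGe k K w Bd w) : LogGeneralType k K w Bd := by
  obtain ⟨N, hN, ω, h1, D, hD, h2⟩ := hk
  exact ⟨htr, N, hN, ω, fun j => (h1 j).1, fun P hP j => (h1 j).2.1 P hP,
    fun P hP hB j => (h1 j).2.2 P hP hB, D, hD, h2⟩

theorem kod_of_lgt {K : Type} [Field K] [Algebra k K] {w : ℕ} {Bd : Place k K → Prop}
    (h : LogGeneralType k K w Bd) : KodGe k K w Bd w := by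
  obtain ⟨-, N, hN, ω, h1, h2, h3, h4⟩ := h
  exact ⟨N, hN, ω, fun j => ⟨h1 j, fun P hP => h2 P hP j, fun P hP hB => h3 P hP hB j⟩, h4⟩

theorem lin_single {K : Type} [Field K] [Algebra k K] (i0 : Fin (n + 1)) (y : Fin (n + 1) → K) :
    lin (Pi.single i0 (1 : k)) y = y i0 := by
  classical
  unfold lin
  rw [Finset.sum_eq_single i0]
  · rw [Pi.single_eq_same, map_one, one_mul]
  · intro i _ hi
    rw [Pi.single_eq_of_ne hi, map_zero, zero_mul]
  · intro h
    exact absurd (Finset.mem_univ _) h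

theorem ratio_const {K : Type} [Field K] [Algebra k K] [CharZero K] (D : Derivation k K K)
    {a b A B : K} {p q : ℕ} (ha : a ≠ 0) (hb : b ≠ 0) (hA : A ≠ 0) (hB : B ≠ 0) (hp : 0 < p)
    (hq : 0 < q) (h1 : D (a ^ p / A) = 0) (h2 : D (b ^ q / B) = 0)
    (h3 : D (A ^ q / B ^ p) = 0) : D (a / b) = 0 := by
  have h1' : a ^ p / A ∈ consts D := h1
  have h2' : b ^ q / B ∈ consts D := h2
  have h3' : A ^ q / B ^ p ∈ consts D := h3
  have h4 : (a / b) ^ (p * q) = (a ^ p / A) ^ q * (A ^ q / B ^ p) * ((b ^ q / B)⁻¹) ^ p := by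
    rw [div_pow, div_pow, inv_div, div_pow, ← pow_mul, ← pow_mul, mul_comm q p]
    field_simp
  have h5 : (a / b) ^ (p * q) ∈ consts D := by
    rw [h4]
    exact mul_mem (mul_mem (pow_mem h1' _) h3') (pow_mem (inv_mem h2') _)
  exact der_pow_zero D (div_ne_zero ha hb) (Nat.mul_pos hp hq) h5

/-- the flow given by a vector field -/
theorem flow_of_der [IsAlgClosed k] [CharZero k] [Finite κ] {F : ι → MvPolynomial (Fin (n + 1)) k}
    {Q : κ → MvPolynomial (Fin (n + 1)) k} (hQh : ∀ j, IsForm (Q j))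
    {K : Type} [Field K] [Algebra k K] {w : ℕ} {y : Fin (n + 1) → K} (hy : SubVarQ F Q K w y)
    (hcomp : IsComponentQ F Q y) {D : Derivation k K K} (hD : D ≠ 0)
    {lq : κ → Fin (n + 1) → k} (hG : Good F Q y (PrD D y) lq) {ls : Fin (n + 1) → k}
    (hls : lin ls y ≠ 0) :
    ∃ (C : IntermediateField k K) (c τ : K) (z e : Fin (n + 1) → K), FlowData Q y lq C c τ z e ∧
      (∀ l : Fin (n + 1) → k, D (lin l y / lin ls y) = 0 → lin l e = 0) ∧
      (∃ i j, y i * e j - y j * e i ≠ 0) ∧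
      (∀ G : MvPolynomial (Fin (n + 1)) k, IsForm G → val y G = 0 → ∀ t : K,
        val (fun l => y l + t * e l) G = 0) ∧
      ∀ (t : K) (j : κ), val (fun l => y l + t * e l) (Q j) =
        val y (Q j) * (1 + lin (lq j) e / lin (lq j) y * t) ^ (Q j).totalDegree := by
  have hgen : Algebra.IsAlgebraic (coords k y) K := by
    rw [hy.gen]
    infer_instance
  let v : Fin (n + 1) → K := fun l => 1 * D (y l) + (-(D (lin ls y) / lin ls y)) * y l
  have hlv : ∀ l : Fin (n + 1) → k, lin l v = D (lin l y) - D (lin ls y) / lin ls y * lin l y := by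
    intro l
    simp only [v]
    rw [lin_add_smul, lin_der]
    ring
  have hlv0 : ∀ l : Fin (n + 1) → k, D (lin l y / lin ls y) = 0 → lin l v = 0 := by
    intro l hl
    have h1 : lin l y = (lin l y / lin ls y) * lin ls y := by field_simp
    have h2 : D (lin l y) = (lin l y / lin ls y) * D (lin ls y) := by
      conv_lhs => rw [h1]
      rw [D.leibniz, hl, smul_zero, add_zero, smul_eq_mul]
    rw [hlv, h2]
    field_simp
    ring
  have hvs : lin ls v = 0 := hlv0 ls (der_div_self D hls)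
  obtain ⟨j0, hvj⟩ : ∃ j0, v j0 ≠ 0 := by
    by_contra hcon
    push Not at hcon
    obtain ⟨i, j, hij⟩ := moves (k := k) hgen hD
    apply hij
    have h1 : ∀ l, D (y l) = D (lin ls y) / lin ls y * y l := by
      intro l
      have h2 := hcon l
      simp only [v] at h2
      linear_combination h2
    rw [h1, h1]
    ring
  obtain ⟨C, z, e, h1, h2, h3, h4, h5, h6, h7, h8, h9, h10⟩ := flow hQh hy hcomp hG v
    (fun l hl => by rw [hlv, hl, map_zero, mul_zero, sub_zero])
    (fun p hp => by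
      obtain ⟨hp1, hp2, hp3⟩ := hp
      rw [hlv, hlv]
      have h4 : D (lin p.1 y) = lin p.1 y / lin p.2 y * D (lin p.2 y) := by
        have h5 : lin p.1 y = lin p.1 y / lin p.2 y * lin p.2 y := by field_simp
        conv_lhs => rw [h5]
        rw [D.leibniz, hp3, smul_zero, add_zero, smul_eq_mul]
      rw [h4]
      field_simp) hls hvs hvj
  have hQne : ∀ j, Q j ≠ 0 := by
    intro j h0
    apply hy.off j
    rw [h0]
    unfold Pool.Agent.W602.GT.val
    rw [map_zero]
  refine ⟨C, lin ls y, y j0 / lin ls y, z, e, ⟨fun j => ?_, hy.off, hls, h1, h2, h3, h4, h5,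
    hG.lq_ne, h7⟩, fun l hl => h6 l (hlv0 l hl), ?_, h9, ?_⟩
  · obtain ⟨d, hd⟩ := hQh j
    rw [hd.totalDegree (hQne j)]
    exact hd
  · by_contra hcon
    push Not at hcon
    apply hls
    have h11 : y = fun i => y j0 * e i := by
      funext i
      have h12 := hcon i j0
      rw [h8] at h12
      linear_combination h12
    rw [h11, lin_smul, h6 ls hvs, mul_zero]
  · intro t j
    rw [h10]
    have h11 := hG.lq_ne j
    have h12 : lin (lq j) y + t * lin (lq j) e =
        lin (lq j) y * (1 + lin (lq j) e / lin (lq j) y * t) := by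
      field_simp
    rw [h12, mul_pow]
    field_simp

/-- the order of the boundary forms at places with a centre -/
theorem ord_off {K : Type} [Field K] [Algebra k K] {Q : κ → MvPolynomial (Fin (n + 1)) k}
    (hQ : ∀ j, (Q j).IsHomogeneous (Q j).totalDegree) {y : Fin (n + 1) → K} (hy : y ≠ 0)
    (hoff : ∀ j, val y (Q j) ≠ 0) {P : Place k K} (hP : ¬ OffAny Q y P) :
    ∃ μ : ℤ, ∀ j, P.ord (val y (Q j)) = (Q j).totalDegree * μ := by
  obtain ⟨i0, h0, hmin⟩ := exists_min P hy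
  refine ⟨P.ord (y i0), fun j => ?_⟩
  have h1 : ¬ OffQ (Q j) (Q j).totalDegree y P := fun h => hP ⟨j, h⟩
  unfold OffQ at h1
  push Not at h1
  exact le_antisymm (h1 i0 h0) (ord_form P h0 hmin (hQ j) (hoff j))

theorem powSum_form {F : MvPolynomial (Fin (n + 1)) k} {S N : ℕ} (h : IsPowSum S N F) :
    IsForm F := by
  obtain ⟨r, d, l, -, -, rfl⟩ := h
  exact ⟨d, hom_pow l⟩

/-- **The main theorem.** -/
theorem main [IsAlgClosed k] [CharZero k] [Finite κ] {F : ι → MvPolynomial (Fin (n + 1)) k}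
    {Q : κ → MvPolynomial (Fin (n + 1)) k} {S N : ℕ}
    (hF : ∀ i, IsPowSum S N (F i)) (hQ : ∀ j, IsPowSum (S - 1) N (Q j)) (hN1 : 1 ≤ N)
    (hN : n * ((S + 1) * tn (S - 1)) ≤ N) {K : Type} [Field K] [Algebra k K] {w : ℕ}
    {y : Fin (n + 1) → K} (hy : SubVarQ F Q K w y) (hcomp : IsComponentQ F Q y) :
    (¬ Psef k K w (OffAny Q y) ∧ AffLine Q y) ∨
      ∃ h p : ℕ, h + p = w ∧ KodGe k K w (OffAny Q y) h ∧
        (Nat.card κ ≤ 2 → p ≤ 1 ∧ (p = 1 → ¬ KodGe k K w (OffAny Q y) w ∧ PunLine Q y)) := by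
  classical
  have hK : CharZero K := charZero_of_injective_algebraMap (algebraMap k K).injective
  have hQh : ∀ j, IsForm (Q j) := fun j => powSum_form (hQ j)
  have hQne : ∀ j, Q j ≠ 0 := by
    intro j h0
    apply hy.off j
    rw [h0]
    unfold Pool.Agent.W602.GT.val
    rw [map_zero]
  have hhom : ∀ j, (Q j).IsHomogeneous (Q j).totalDegree := by
    intro j
    obtain ⟨d, hd⟩ := hQh j
    rw [hd.totalDegree (hQne j)]
    exact hd
  have hdpos : ∀ j, 0 < (Q j).totalDegree := by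
    intro j
    obtain ⟨r, d, l, -, hd, h1⟩ := hQ j
    have h2 : (Q j).IsHomogeneous d := by
      rw [h1]
      exact hom_pow l
    rw [h2.totalDegree (hQne j)]
    omega
  obtain ⟨J, hJ, g, hg, hcard, hjump, hgood⟩ := terms hF hQ hN1 hN hy
  let u : κ → κ → K := fun j1 j => val y (Q j) ^ (Q j1).totalDegree /
    val y (Q j1) ^ (Q j).totalDegree
  obtain ⟨i0, hi0'⟩ := Function.ne_iff.1 hy.ne
  have hi0 : y i0 ≠ 0 := hi0'
  -- a base index
  obtain ⟨B, hB1, hB2⟩ : ∃ B : Set κ, (∀ a ∈ B, ∀ b ∈ B, a = b) ∧ (∀ j : κ, B.Nonempty) := by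
    by_cases hne : Nonempty κ
    · obtain ⟨j1⟩ := hne
      exact ⟨{j1}, fun a ha b hb => by
        rw [Set.mem_singleton_iff] at ha hb
        rw [ha, hb], fun _ => ⟨j1, rfl⟩⟩
    · exact ⟨∅, fun a ha => absurd ha (Set.notMem_empty a), fun j => absurd ⟨j⟩ hne⟩
  let Su' : Set K := {x | ∃ j1 ∈ B, ∃ j, j ≠ j1 ∧ x = u j1 j}
  -- the linear form at infinity
  have hls : ∀ lq : κ → Fin (n + 1) → k, (∀ j, lin (lq j) y ≠ 0) →
      ∃ ls : Fin (n + 1) → k, lin ls y ≠ 0 ∧ ∀ j1 ∈ B, ls = lq j1 := by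
    intro lq hlq
    by_cases hne : B.Nonempty
    · obtain ⟨j1, hj1⟩ := hne
      exact ⟨lq j1, hlq j1, fun b hb => by rw [hB1 j1 hj1 b hb]⟩
    · refine ⟨Pi.single i0 1, by rw [lin_single]; exact hi0, fun j1 hj1 => absurd ⟨j1, hj1⟩ hne⟩
  by_cases hker : ∀ D : Derivation k K K, (∀ e (C : CD k (g e)) (a b : Fin (C.m + 1)),
      D (g e (C.e a) / g e (C.e b)) = 0) → (∀ x ∈ Su', D x = 0) → D = 0
  · right
    have hunit : ∀ P : Place k K, ¬ OffAny Q y P → ∀ x ∈ Su', P.ord x = 0 := by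
      rintro P hP x ⟨j1, -, j, -, rfl⟩
      obtain ⟨μ, hμ⟩ := ord_off hhom hy.ne hy.off hP
      rw [P.ord_div (pow_ne_zero _ (hy.off j)) (pow_ne_zero _ (hy.off j1)), P.ord_pow, P.ord_pow,
        hμ, hμ]
      ring
    obtain ⟨h, p, t, uu, hhp, hbasis, huu, hkill, hkod⟩ := kod_units hy.dim g hg hcard
      (OffAny Q y) hjump Su' (by
        rintro x ⟨j1, -, j, -, rfl⟩
        exact div_ne_zero (pow_ne_zero _ (hy.off j)) (pow_ne_zero _ (hy.off j1))) hunit hker
    refine ⟨h, p, hhp, hkod, fun hκ => ?_⟩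
    have := Fintype.ofFinite κ
    rw [Nat.card_eq_fintype_card] at hκ
    have huniq : ∀ j1 ∈ B, ∀ j j' : κ, j ≠ j1 → j' ≠ j1 → j = j' := by
      intro j1 _ j j' h1 h2
      by_contra h3
      have h4 : ({j1, j, j'} : Finset κ).card = 3 := by
        rw [Finset.card_insert_of_notMem, Finset.card_insert_of_notMem, Finset.card_singleton]
        · simpa using h3
        · simp [h1.symm, h2.symm]
      have h5 := Finset.card_le_univ ({j1, j, j'} : Finset κ)
      omega
    have hsing : ∀ a ∈ Su', ∀ b ∈ Su', a = b := by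
      rintro a ⟨j1, hj1, j, hj, rfl⟩ b ⟨j1', hj1', j', hj', rfl⟩
      obtain rfl := hB1 j1 hj1 j1' hj1'
      rw [huniq j1 hj1 j j' hj hj']
    have hinj : Function.Injective uu := (hbasis.1.comp Sum.inr Sum.inr_injective).injective
    have hp1 : p ≤ 1 := by
      by_contra hcon
      push Not at hcon
      have h1 : uu ⟨0, by omega⟩ = uu ⟨1, by omega⟩ := hsing _ (huu _) _ (huu _)
      have h2 := hinj h1
      simp at h2
    refine ⟨hp1, ?_⟩
    rintro rfl
    obtain ⟨D, hD⟩ := exists_der (Sum.elim t uu) hbasis (Sum.elim (fun _ => 0) (fun _ => 1))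
    have hD0 : D ≠ 0 := by
      rintro rfl
      have h1 := hD (Sum.inr 0)
      exact zero_ne_one h1
    obtain ⟨lq, hG, hlq⟩ := hgood D (hkill D fun i => hD (Sum.inl i))
    obtain ⟨ls, hls1, hls2⟩ := hls lq hG.lq_ne
    obtain ⟨C, c, τ, z, e, hfd, h1, h2, h3, h4⟩ := flow_of_der hQh hy hcomp hD0 hG hls1
    have hBe : ∀ j1 ∈ B, lin (lq j1) e = 0 := by
      intro j1 hj1
      apply h1
      rw [hls2 j1 hj1]
      exact der_div_self D (hG.lq_ne j1)
    have hone : ∀ j j', lin (lq j) e ≠ 0 → lin (lq j') e ≠ 0 → j = j' := by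
      intro j j' hj hj'
      obtain ⟨j1, hj1⟩ := hB2 j
      refine huniq j1 hj1 j j' ?_ ?_
      · rintro rfl
        exact hj (hBe _ hj1)
      · rintro rfl
        exact hj' (hBe _ hj1)
    refine ⟨fun hk => hfd.not_lgt hone (lgt_of_kod hy.dim hk), e,
      fun j => lin (lq j) e / lin (lq j) y, h2, h3, h4, fun j j' hj hj' => hone j j' ?_ ?_⟩
    · intro h0
      exact hj (by simp only [h0, zero_div])
    · intro h0
      exact hj' (by simp only [h0, zero_div])
  · left
    push Not at hker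
    obtain ⟨D, hD1, hD2, hD0⟩ := hker
    obtain ⟨lq, hG, hlq⟩ := hgood D hD1
    obtain ⟨ls, hls1, hls2⟩ := hls lq hG.lq_ne
    obtain ⟨C, c, τ, z, e, hfd, h1, h2, h3, h4⟩ := flow_of_der hQh hy hcomp hD0 hG hls1
    have he : ∀ j, lin (lq j) e = 0 := by
      intro j
      apply h1
      obtain ⟨j1, hj1⟩ := hB2 j
      rw [hls2 j1 hj1]
      by_cases hj : j = j1
      · rw [hj]
        exact der_div_self D (hG.lq_ne j1)
      · exact ratio_const D (hG.lq_ne j) (hG.lq_ne j1) (hy.off j) (hy.off j1) (hdpos j)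
          (hdpos j1) (hlq j) (hlq j1) (hD2 _ ⟨j1, hj1, j, hj, rfl⟩)
    refine ⟨hfd.not_psef hy.dim he, e, h2, h3, fun t j => ?_⟩
    rw [h4, he, zero_div, zero_mul, add_zero, one_pow, mul_one]

theorem tn_eq (S : ℕ) : tn (S - 1) = (S - 1) * (S - 2) / 2 := by
  unfold tn
  rw [Fin.sum_univ_eq_sum_range (fun i => i), Finset.sum_range_id, Nat.sub_sub]

/-- **Nonvanishing.** -/
theorem nonvanishing [IsAlgClosed k] [CharZero k] [Finite κ]
    {F : ι → MvPolynomial (Fin (n + 1)) k} {Q : κ → MvPolynomial (Fin (n + 1)) k} {S N : ℕ}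
    (hF : ∀ i, IsPowSum S N (F i)) (hQ : ∀ j, IsPowSum (S - 1) N (Q j)) (hN1 : 1 ≤ N)
    (hN : n * ((S + 1) * ((S - 1) * (S - 2) / 2)) ≤ N) {K : Type} [Field K] [Algebra k K] {w : ℕ}
    {y : Fin (n + 1) → K} (hy : SubVarQ F Q K w y) (hcomp : IsComponentQ F Q y) :
    (Psef k K w (OffAny Q y) ∧ KodGe k K w (OffAny Q y) 0) ∨
      (¬ Psef k K w (OffAny Q y) ∧ AffLine Q y) := by
  rw [← tn_eq] at hN
  rcases main hF hQ hN1 hN hy hcomp with h | ⟨h, p, -, hk, -⟩
  · exact Or.inr h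
  · have h0 := kod_mono hk (Nat.zero_le h)
    exact Or.inl ⟨psef_of_kodGe h0, h0⟩

/-- **The logarithmic Kodaira dimension.** -/
theorem trichotomy [IsAlgClosed k] [CharZero k] [Finite κ]
    {F : ι → MvPolynomial (Fin (n + 1)) k} {Q : κ → MvPolynomial (Fin (n + 1)) k} {S N : ℕ}
    (hκ : Nat.card κ ≤ 2)
    (hF : ∀ i, IsPowSum S N (F i)) (hQ : ∀ j, IsPowSum (S - 1) N (Q j)) (hN1 : 1 ≤ N)
    (hN : n * ((S + 1) * ((S - 1) * (S - 2) / 2)) ≤ N) {K : Type} [Field K] [Algebra k K] {w : ℕ}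
    {y : Fin (n + 1) → K} (hy : SubVarQ F Q K w y) (hcomp : IsComponentQ F Q y) :
    (¬ Psef k K w (OffAny Q y) ∧ AffLine Q y) ∨
      (∃ h, h + 1 = w ∧ KodGe k K w (OffAny Q y) h ∧ ¬ KodGe k K w (OffAny Q y) (h + 1) ∧
        PunLine Q y) ∨
      KodGe k K w (OffAny Q y) w := by
  rw [← tn_eq] at hN
  rcases main hF hQ hN1 hN hy hcomp with h | ⟨h, p, hhp, hk, hp⟩
  · exact Or.inl h
  · obtain ⟨hp1, hp2⟩ := hp hκ
    have hp3 : p = 0 ∨ p = 1 := by omega
    rcases hp3 with rfl | rfl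
    · right; right
      rw [add_zero] at hhp
      rw [← hhp] at hk ⊢
      exact hk
    · right; left
      obtain ⟨h1, h2⟩ := hp2 rfl
      refine ⟨h, hhp, hk, ?_, h2⟩
      rw [hhp]
      exact h1

end Pool.Agent.W603.GX
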