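import Pool.Agent.W602.GT.KPick
import Pool.Agent.W602.GT.KDefs

/-!
Sections of the log canonical bundle from vanishing sums and units.
-/

set_option autoImplicit false

open FF IntermediateField Pool.Agent.W603.LV Pool.Agent.W602.GT

namespace Pool.Agent.W603.GX

variable {k K : Type} [Field k] [Field K] [Algebra k K]

theorem algebraMap_div_eq (c c' : k) (a b : K) (hb : b ≠ 0) (hc' : c' ≠ 0) (D : Derivation k K K)
    (hc : c ≠ 0) (h : D (c • a / (c' • b)) = 0) : D (a / b) = 0 := by
  have h1 : c • a / (c' • b) = (c / c') • (a / b) := by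
    rw [Algebra.smul_def, Algebra.smul_def, Algebra.smul_def, map_div₀]
    have h2 : algebraMap k K c' ≠ 0 := by rw [Ne, map_eq_zero]; exact hc'
    field_simp
  rw [h1, D.map_smul] at h
  exact (smul_eq_zero.1 h).resolve_left (div_ne_zero hc hc')

/-- a generating set of a function field in terms of derivations -/
theorem alg_of_ker [CharZero k] {w : ℕ} (htr : Algebra.trdeg k K = w) (S : Set K)
    (hker : ∀ D : Derivation k K K, (∀ s ∈ S, D s = 0) → D = 0) :
    Algebra.IsAlgebraic (IntermediateField.adjoin k S) K := by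
  obtain ⟨h, p, t, u, hhp, ht, -, hbasis, hkill⟩ := basis_pick htr S Set.univ (by
    have h1 : IntermediateField.adjoin k (Set.univ : Set K) = ⊤ := by
      rw [eq_top_iff]
      exact fun x _ => IntermediateField.subset_adjoin k _ (Set.mem_univ x)
    rw [h1]
    infer_instance)
  obtain ⟨D, hD⟩ := exists_der (Sum.elim t u) hbasis (Sum.elim (fun _ => 0) (fun _ => 1))
  have hD0 := hker D (hkill D fun i => hD (Sum.inl i))
  have hp : IsEmpty (Fin p) := by
    constructor
    intro l
    have h1 := hD (Sum.inr l)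
    rw [hD0] at h1
    exact zero_ne_one h1
  have hrange : Set.range (Sum.elim t u) ⊆ S := by
    rintro _ ⟨i | l, rfl⟩
    · exact ht i
    · exact hp.elim l
  have h2 := (hbasis.1.isTranscendenceBasis_iff_isAlgebraic).1 hbasis
  constructor
  intro z
  have h3 := h2.isAlgebraic z
  obtain ⟨q, hq0, hq⟩ := h3
  have hle : Algebra.adjoin k (Set.range (Sum.elim t u)) ≤
      (IntermediateField.adjoin k S).toSubalgebra := by
    rw [Algebra.adjoin_le_iff]
    exact hrange.trans (IntermediateField.subset_adjoin k S)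
  refine ⟨q.map (Subalgebra.inclusion hle).toRingHom, ?_, ?_⟩
  · exact (Polynomial.map_ne_zero_iff (Subalgebra.inclusion_injective hle)).2 hq0
  · rw [Polynomial.aeval_def, Polynomial.eval₂_map]
    exact hq

/-- **Sections.** Let the orders of the members of the vanishing sums `g e` jump at the places
outside `Bd`, and let the elements of `Su` be units there. If no vector field kills the ratios of
the members of circuits and `Su`, then `κ(K_X + D) ≥ h` where `w - h` is the number of elements of
`Su` in a transcendence basis. -/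
theorem kod_units [IsAlgClosed k] [CharZero k] {w : ℕ} (htr : Algebra.trdeg k K = w)
    {Ε : Type} {J : Ε → Type} [∀ e, Fintype (J e)]
    (g : ∀ e, J e → K) (hg : ∀ e j, g e j ≠ 0) {s : ℕ}
    (hs : ∀ e, Fintype.card (J e) ≤ s) (Bd : Place k K → Prop)
    (hjump : ∀ P : Place k K, ¬ Bd P → ∀ e i j, P.ord (g e i) = P.ord (g e j) ∨
      ((w * ((s + 1) * tn (s - 1)) : ℕ) : ℤ) ≤ |P.ord (g e i) - P.ord (g e j)|)
    (Su : Set K) (hSu : ∀ u ∈ Su, u ≠ 0) (hunit : ∀ P : Place k K, ¬ Bd P → ∀ u ∈ Su, P.ord u = 0)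
    (hker : ∀ D : Derivation k K K, (∀ e (C : CD k (g e)) (a b : Fin (C.m + 1)),
      D (g e (C.e a) / g e (C.e b)) = 0) → (∀ u ∈ Su, D u = 0) → D = 0) :
    ∃ (h p : ℕ) (t : Fin h → K) (u : Fin p → K), h + p = w ∧
      IsTranscendenceBasis k (Sum.elim t u) ∧ (∀ i, u i ∈ Su) ∧
      (∀ D : Derivation k K K, (∀ i, D (t i) = 0) →
        ∀ e (C : CD k (g e)) (a b : Fin (C.m + 1)), D (g e (C.e a) / g e (C.e b)) = 0) ∧
      KodGe k K w Bd h := by
  classical
  let I : Type := Σ e : Ε, Σ C : CD k (g e), Fin (C.m + 1) × Fin (C.m + 1)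
  let TT : ∀ i : I, Fin (i.2.1.m + 1) → K := fun i l => i.2.1.c l • g i.1 (i.2.1.e l)
  have hTT : ∀ i j, TT i j ≠ 0 := fun i j => smul_ne_zero (i.2.1.hc j) (hg _ _)
  have hordT : ∀ (P : Place k K) (i : I) j, P.ord (TT i j) = P.ord (g i.1 (i.2.1.e j)) :=
    fun P i j => ord_smul' P (i.2.1.hc j) _
  let S1 : Set K := Set.range fun i : I => TT i i.2.2.1 / TT i i.2.2.2
  have hS1 : ∀ D : Derivation k K K, (∀ z ∈ S1, D z = 0) →
      ∀ e (C : CD k (g e)) (a b : Fin (C.m + 1)), D (g e (C.e a) / g e (C.e b)) = 0 := by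
    intro D hD e C a b
    exact algebraMap_div_eq _ _ _ _ (hg _ _) (C.hc b) D (C.hc a) (hD _ ⟨⟨e, C, a, b⟩, rfl⟩)
  obtain ⟨h, p, t, u, rfl, ht, hu, hbasis, hkill⟩ := basis_pick htr S1 (S1 ∪ Su)
    (alg_of_ker htr _ fun D hD => hker D (hS1 D fun z hz => hD z (Or.inl hz))
      fun z hz => hD z (Or.inr hz))
  have huS : ∀ l, u l ∈ Su := by
    intro l
    rcases hu l with h1 | h1
    · exfalso
      obtain ⟨D, hD⟩ := exists_der (Sum.elim t u) hbasis (Sum.elim (fun _ => 0) (fun _ => 1))
      have h2 := hkill D (fun i => hD (Sum.inl i)) _ h1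
      have h3 := hD (Sum.inr l)
      simp only [Sum.elim_inr] at h3
      rw [h2] at h3
      exact zero_ne_one h3
    · exact h1
  choose φ hφ using ht
  refine ⟨h, p, t, u, rfl, hbasis, huS, fun D hD => hS1 D (hkill D hD), ?_⟩
  let m : Fin h → ℕ := fun i => (φ i).2.1.m
  let T : ∀ i, Fin (m i + 1) → K := fun i => TT (φ i)
  let a : ∀ i, Fin (m i + 1) := fun i => (φ i).2.2.1
  let a' : ∀ i, Fin (m i + 1) := fun i => (φ i).2.2.2
  have hT : ∀ i j, T i j ≠ 0 := fun i j => hTT _ _
  have ht' : ∀ i, t i = T i (a i) / T i (a' i) := fun i => (hφ i).symm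
  let x : Fin (h + p) → K := Sum.elim t u ∘ finSumFinEquiv.symm
  have hx : IsTranscendenceBasis k x := hbasis.comp_equiv finSumFinEquiv.symm
  have hx0 : ∀ q, x q ≠ 0 := by
    intro q
    simp only [x, Function.comp_apply]
    rcases finSumFinEquiv.symm q with i | l
    · simp only [Sum.elim_inl]
      rw [ht']
      exact div_ne_zero (hT _ _) (hT _ _)
    · exact hSu _ (huS l)
  obtain ⟨G, hG0, hG, hP⟩ := coreK T hT (fun i => (φ i).2.1.rel) (fun i => (φ i).2.1.lin) x hx0 hx
  have hwt : wt m ≤ (h + p) * ((s + 1) * tn (s - 1)) := by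
    unfold wt
    calc ∑ i, (m i + 2) * tn (m i) ≤ ∑ _i : Fin h, (s + 1) * tn (s - 1) := by
          refine Finset.sum_le_sum fun i _ => ?_
          have h3 : m i + 1 ≤ s := by
            have h4 := Fintype.card_le_of_injective _ (φ i).2.1.he
            simp only [Fintype.card_fin] at h4
            exact h4.trans (hs _)
          exact Nat.mul_le_mul (by omega) (tn_mono (by omega))
      _ = h * ((s + 1) * tn (s - 1)) := by simp
      _ ≤ (h + p) * ((s + 1) * tn (s - 1)) := Nat.mul_le_mul_right _ (by omega)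
  let cc : Fin (h + 1) → ∀ i, Fin (m i + 1) :=
    Fin.cases a' fun q => Function.update a' q (a q)
  refine ⟨max 1 (wt m), by omega, fun j => form x (max 1 (wt m)) (G (cc j)),
    fun j => ⟨form_pluri _ _ _, fun P _ => (hP P).1 _, fun P _ hPU => (hP P).2 ?_ ?_ _⟩, ?_⟩
  · intro i j l
    change P.ord (TT (φ i) j) = P.ord (TT (φ i) l) ∨ _ ≤ |P.ord (TT (φ i) j) - P.ord (TT (φ i) l)|
    rw [hordT, hordT]
    rcases hjump P hPU _ ((φ i).2.1.e j) ((φ i).2.1.e l) with h1 | h1
    · exact Or.inl h1
    · right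
      refine le_trans ?_ h1
      exact_mod_cast hwt
  · intro hall q
    simp only [x, Function.comp_apply]
    rcases finSumFinEquiv.symm q with i | l
    · simp only [Sum.elim_inl]
      rw [ht', P.ord_div (hT _ _) (hT _ _), hall i (a i) (a' i), sub_self]
    · exact hunit P hPU _ (huS l)
  · obtain ⟨D, hD⟩ := exists_dual hx
    have hf : ∀ c, form x (max 1 (wt m)) (G c) D = G c := fun c => by
      unfold form
      rw [hD, Matrix.det_one, one_pow, mul_one]
    refine ⟨D, by change form x (max 1 (wt m)) (G (cc 0)) D ≠ 0; rw [hf]; exact hG0 _, ?_⟩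
    have h1 : ∀ q : Fin h, G (cc q.succ) / G (cc 0) = t q := by
      intro q
      have h2 := hG (cc q.succ) (cc 0)
      have h3 : ∏ i, T i (cc q.succ i) = (∏ i, T i (cc 0 i)) * t q := by
        change ∏ i, T i (Function.update a' q (a q) i) = (∏ i, T i (a' i)) * t q
        rw [← Finset.mul_prod_erase Finset.univ _ (Finset.mem_univ q),
          ← Finset.mul_prod_erase Finset.univ (fun i => T i (a' i)) (Finset.mem_univ q)]
        have h4 : ∏ i ∈ Finset.univ.erase q,
            T i (Function.update a' q (a q) i) =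
            ∏ i ∈ Finset.univ.erase q, T i (a' i) := by
          refine Finset.prod_congr rfl fun i hi => ?_
          rw [Function.update_of_ne (Finset.ne_of_mem_erase hi)]
        rw [h4, Function.update_self, ht' q]
        have h5 := hT q (a' q)
        field_simp
      rw [h3] at h2
      have h4 : ∏ i, T i (cc 0 i) ≠ 0 := Finset.prod_ne_zero_iff.2 fun i _ => hT _ _
      have h5 := hG0 (cc 0)
      rw [div_eq_iff h5]
      apply mul_right_cancel₀ h4
      rw [h2]
      ring
    simp only [hf, h1]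
    exact hbasis.1.comp Sum.inl Sum.inl_injective

end Pool.Agent.W603.GX
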